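import Mathlib

/-! Alternating functions on `ℤ ^ n` which satisfy the Frobenius relations. -/

namespace Pool.Agent.TH890.BMn

open Finset

variable {m : ℕ}

/-- `ad g c I`: add `c` to the entries of `g` with index in `I`. -/
def ad (g : Fin (m + 1) → ℤ) (c : ℤ) (I : Finset (Fin (m + 1))) : Fin (m + 1) → ℤ :=
  fun a => g a + if a ∈ I then c else 0

/-- the quadratic size -/
def N (h : Fin (m + 1) → ℤ) : ℤ := (m + 1) * (∑ a, h a ^ 2) - (∑ a, h a) ^ 2

theorem N_nonneg (h : Fin (m + 1) → ℤ) : 0 ≤ N h := by
  unfold N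
  have := sq_sum_le_card_mul_sum_sq (s := (univ : Finset (Fin (m + 1)))) (f := h)
  rw [card_univ, Fintype.card_fin] at this
  push_cast at this
  linarith

theorem N_perm (h : Fin (m + 1) → ℤ) (π : Equiv.Perm (Fin (m + 1))) : N (h ∘ π) = N h := by
  unfold N
  have h1 : ∑ a, (h ∘ π) a ^ 2 = ∑ a, h a ^ 2 := Equiv.sum_comp π fun a => h a ^ 2
  have h2 : ∑ a, (h ∘ π) a = ∑ a, h a := Equiv.sum_comp π h
  rw [h1, h2]

theorem N_ad (g : Fin (m + 1) → ℤ) (c : ℤ) (I : Finset (Fin (m + 1))) :
    N (ad g c I) = N g + 2 * c * ((m + 1) * (∑ a ∈ I, g a) - I.card * ∑ a, g a) +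
      c ^ 2 * (I.card * (m + 1 - I.card)) := by
  have h1 : ∑ a, ad g c I a = ∑ a, g a + c * I.card := by
    unfold ad
    rw [Finset.sum_add_distrib, Finset.sum_ite_mem, Finset.univ_inter, Finset.sum_const,
      nsmul_eq_mul]
    ring
  have h2 : ∑ a, ad g c I a ^ 2 = ∑ a, g a ^ 2 + 2 * c * ∑ a ∈ I, g a + c ^ 2 * I.card := by
    have h3 : ∀ a, ad g c I a ^ 2 = g a ^ 2 + (if a ∈ I then 2 * c * g a + c ^ 2 else 0) := by
      intro a
      unfold ad
      split_ifs
      · ring
      · ring
    rw [Finset.sum_congr rfl fun a _ => h3 a, Finset.sum_add_distrib, Finset.sum_ite_mem,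
      Finset.univ_inter, Finset.sum_add_distrib, ← Finset.mul_sum, Finset.sum_const, nsmul_eq_mul]
    ring
  unfold N
  rw [h1, h2]
  ring

/-- initial segments have the largest sums -/
theorem sum_lt {g : Fin (m + 1) → ℤ} (hg : StrictAnti g) (i : Fin m)
    (I : Finset (Fin (m + 1))) (hI : I.card = (univ.filter (· ≤ i.castSucc)).card)
    (hne : I ≠ univ.filter (· ≤ i.castSucc)) :
    ∑ a ∈ I, g a < ∑ a ∈ univ.filter (· ≤ i.castSucc), g a := by
  set J : Finset (Fin (m + 1)) := univ.filter (· ≤ i.castSucc) with hJ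
  have h1 := Finset.sum_sdiff_sub_sum_sdiff (s₁ := I) (s₂ := J) (f := g)
  have hc : (J \ I).card = (I \ J).card := Finset.card_sdiff_comm hI.symm
  have h2 : ((J \ I).card : ℤ) * g i.castSucc ≤ ∑ a ∈ J \ I, g a := by
    have := Finset.card_nsmul_le_sum (J \ I) g (g i.castSucc) fun a ha => by
      rw [mem_sdiff, hJ, mem_filter] at ha
      exact hg.antitone ha.1.2
    rwa [nsmul_eq_mul] at this
  have h3 : ∑ a ∈ I \ J, g a ≤ ((I \ J).card : ℤ) * (g i.castSucc - 1) := by
    have := Finset.sum_le_card_nsmul (I \ J) g (g i.castSucc - 1) fun a ha => by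
      rw [mem_sdiff, hJ, mem_filter] at ha
      have h4 : i.castSucc < a := by
        by_contra h5
        exact ha.2 ⟨mem_univ _, not_lt.1 h5⟩
      have := hg h4
      omega
    rwa [nsmul_eq_mul] at this
  have h4 : 0 < (I \ J).card := by
    rw [card_pos]
    by_contra h5
    rw [not_nonempty_iff_eq_empty, sdiff_eq_empty_iff_subset] at h5
    exact hne (Finset.eq_of_subset_of_card_le h5 hI.ge)
  rw [hc] at h2
  have h5 : (0 : ℤ) < ((I \ J).card : ℤ) := by exact_mod_cast h4
  nlinarith

theorem sum_pos {g : Fin (m + 1) → ℤ} (hg : StrictAnti g) (i : Fin m) :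
    0 < (m + 1) * (∑ a ∈ univ.filter (· ≤ i.castSucc), g a) -
      (univ.filter (· ≤ i.castSucc) : Finset (Fin (m + 1))).card * ∑ a, g a := by
  set J : Finset (Fin (m + 1)) := univ.filter (· ≤ i.castSucc) with hJ
  have h0 : ∑ a, g a = ∑ a ∈ J, g a + ∑ a ∈ Jᶜ, g a := (Finset.sum_add_sum_compl J g).symm
  have hcard : (J.card : ℤ) + (Jᶜ.card : ℤ) = m + 1 := by
    have := Finset.card_add_card_compl J
    rw [Fintype.card_fin] at this
    exact_mod_cast this
  have h2 : (J.card : ℤ) * g i.castSucc ≤ ∑ a ∈ J, g a := by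
    have := Finset.card_nsmul_le_sum J g (g i.castSucc) fun a ha => by
      rw [hJ, mem_filter] at ha
      exact hg.antitone ha.2
    rwa [nsmul_eq_mul] at this
  have h3 : ∑ a ∈ Jᶜ, g a ≤ (Jᶜ.card : ℤ) * (g i.castSucc - 1) := by
    have := Finset.sum_le_card_nsmul Jᶜ g (g i.castSucc - 1) fun a ha => by
      rw [mem_compl, hJ, mem_filter] at ha
      have h4 : i.castSucc < a := by
        by_contra h5
        exact ha ⟨mem_univ _, not_lt.1 h5⟩
      have := hg h4
      omega
    rwa [nsmul_eq_mul] at this
  have hJ1 : 0 < J.card := card_pos.2 ⟨i.castSucc, by rw [hJ, mem_filter]; exact ⟨mem_univ _, le_refl _⟩⟩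
  have hJ2 : 0 < Jᶜ.card := card_pos.2 ⟨i.succ, by
    rw [mem_compl, hJ, mem_filter]
    exact fun h => absurd h.2 (not_le.2 (Fin.castSucc_lt_succ (i := i)))⟩
  have e1 : (m + 1 : ℤ) * (∑ a ∈ J, g a) - J.card * ∑ a, g a =
      Jᶜ.card * (∑ a ∈ J, g a) - J.card * ∑ a ∈ Jᶜ, g a := by
    rw [h0, ← hcard]
    ring
  rw [e1]
  have p1 : (0 : ℤ) < J.card := by exact_mod_cast hJ1
  have p2 : (0 : ℤ) < Jᶜ.card := by exact_mod_cast hJ2
  have q1 := mul_le_mul_of_nonneg_left h2 p2.le
  have q2 := mul_le_mul_of_nonneg_left h3 p1.le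
  have q3 : (0 : ℤ) < J.card * Jᶜ.card := mul_pos p1 p2
  nlinarith

/-- Alternating functions. -/
def Alt (Φ : (Fin (m + 1) → ℤ) → ℤ) : Prop :=
  ∀ (h : Fin (m + 1) → ℤ) (π : Equiv.Perm (Fin (m + 1))), Φ (h ∘ π) = (Equiv.Perm.sign π : ℤ) * Φ h

/-- The Frobenius relations. -/
def Rel (p : ℕ) (Φ : (Fin (m + 1) → ℤ) → ℤ) : Prop :=
  ∀ (i : ℕ) (h : Fin (m + 1) → ℤ), ∑ I ∈ powersetCard i univ, Φ (ad h p I) =
    ∑ I ∈ powersetCard i univ, Φ (ad h 1 I)

/-- Restricted Hodge types. -/
def Restricted (p : ℕ) (h : Fin (m + 1) → ℤ) : Prop :=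
  StrictAnti h ∧ ∀ i : Fin m, h i.castSucc - h i.succ ≤ p

theorem vanish {p : ℕ} (hp : 2 ≤ p) (Φ : (Fin (m + 1) → ℤ) → ℤ) (ha : Alt Φ) (hr : Rel p Φ)
    (hs : ∀ h, Restricted p h → Φ h = 0) : ∀ h, Φ h = 0 := by
  have key : ∀ k : ℕ, ∀ h : Fin (m + 1) → ℤ, (N h).toNat = k → Φ h = 0 := by
    intro k
    induction k using Nat.strong_induction_on with
    | _ k ih =>
    have IH : ∀ g h' : Fin (m + 1) → ℤ, (N g).toNat = k → N h' < N g → Φ h' = 0 := by
      intro g h' hg hh
      refine ih _ ?_ h' rfl
      have := N_nonneg h'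
      have := N_nonneg g
      omega
    have main : ∀ g : Fin (m + 1) → ℤ, StrictAnti g → (N g).toNat = k → Φ g = 0 := by
      intro g hg hk
      by_cases hres : ∀ i : Fin m, g i.castSucc - g i.succ ≤ p
      · exact hs g ⟨hg, hres⟩
      · push Not at hres
        obtain ⟨i, hi⟩ := hres
        set J : Finset (Fin (m + 1)) := univ.filter (· ≤ i.castSucc) with hJ
        set g' := ad g (-p) J with hg'
        have hback : ad g' p J = g := by
          funext a
          rw [hg']
          unfold ad
          split_ifs <;> ring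
        have hanti : StrictAnti g' := by
          intro a b hab
          have h1 := hg hab
          rw [hg']
          unfold ad
          by_cases hb : b ∈ J
          · have haJ : a ∈ J := by
              rw [hJ, mem_filter] at hb ⊢
              exact ⟨mem_univ _, hab.le.trans hb.2⟩
            rw [if_pos hb, if_pos haJ]
            omega
          · by_cases haJ : a ∈ J
            · rw [if_neg hb, if_pos haJ]
              have h2 : g i.castSucc ≤ g a := by
                rw [hJ, mem_filter] at haJ
                exact hg.antitone haJ.2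
              have h3 : g b ≤ g i.succ := by
                refine hg.antitone ?_
                rw [hJ, mem_filter] at hb
                have h4 : i.castSucc < b := by
                  by_contra h5
                  exact hb ⟨mem_univ _, not_lt.1 h5⟩
                exact Fin.castSucc_lt_iff_succ_le.1 h4
              omega
            · rw [if_neg hb, if_neg haJ]
              omega
        have hrel := hr J.card g'
        have hJmem : J ∈ powersetCard J.card (univ : Finset (Fin (m + 1))) :=
          mem_powersetCard.2 ⟨subset_univ _, rfl⟩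
        have hpos := sum_pos hanti i
        rw [← hJ] at hpos
        have hNg : N g = N g' + 2 * p * ((m + 1) * (∑ a ∈ J, g' a) - J.card * ∑ a, g' a) +
            (p : ℤ) ^ 2 * (J.card * (m + 1 - J.card)) := by
          rw [← N_ad, hback]
        have hJle : (J.card : ℤ) ≤ m + 1 := by
          have := card_le_univ J
          rw [Fintype.card_fin] at this
          exact_mod_cast this
        have hp' : (2 : ℤ) ≤ p := by exact_mod_cast hp
        rw [Finset.sum_eq_single_of_mem J hJmem, hback] at hrel
        · rw [hrel]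
          refine Finset.sum_eq_zero fun I hI => ?_
          refine IH g _ hk ?_
          rw [hNg, N_ad, (mem_powersetCard.1 hI).2]
          have hle : ∑ a ∈ I, g' a ≤ ∑ a ∈ J, g' a := by
            by_cases hIJ : I = J
            · rw [hIJ]
            · exact (sum_lt hanti i I (mem_powersetCard.1 hI).2 hIJ).le
          have hm : (0 : ℤ) ≤ m + 1 := by positivity
          have s1 := mul_le_mul_of_nonneg_left hle hm
          have s2 : (0 : ℤ) ≤ J.card * (m + 1 - J.card) :=
            mul_nonneg (by positivity) (by linarith)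
          have s3 := mul_le_mul_of_nonneg_right hp' hpos.le
          have s4 : (1 : ℤ) ≤ (p : ℤ) ^ 2 := by nlinarith
          have s5 := mul_le_mul_of_nonneg_right s4 s2
          linarith
        · intro I hI hIJ
          refine IH g _ hk ?_
          rw [hNg, N_ad, (mem_powersetCard.1 hI).2]
          have hlt := sum_lt hanti i I (mem_powersetCard.1 hI).2 hIJ
          have hm : (0 : ℤ) < m + 1 := by positivity
          have s1 := mul_lt_mul_of_pos_left hlt hm
          nlinarith
    intro h hk
    by_cases hinj : Function.Injective h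
    · set π := Tuple.sort fun a => -h a with hπ
      have h1 : Monotone ((fun a => -h a) ∘ π) := Tuple.monotone_sort _
      have h2 : Antitone (h ∘ π) := by
        intro a b hab
        have := h1 hab
        simp only [Function.comp_apply] at this ⊢
        omega
      have h3 : StrictAnti (h ∘ π) := h2.strictAnti_of_injective (hinj.comp π.injective)
      have h4 := main (h ∘ π) h3 (by rw [N_perm]; exact hk)
      rw [ha] at h4
      rcases mul_eq_zero.1 h4 with h5 | h5
      · exact absurd h5 (by
          rcases Int.units_eq_one_or (Equiv.Perm.sign π) with h6 | h6 <;> rw [h6] <;> norm_num)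
      · exact h5
    · rw [Function.not_injective_iff] at hinj
      obtain ⟨a, b, hab, hne⟩ := hinj
      have h1 : h ∘ Equiv.swap a b = h := by
        funext c
        simp only [Function.comp_apply]
        rcases eq_or_ne c a with hc | hc
        · rw [hc, Equiv.swap_apply_left, hab]
        · rcases eq_or_ne c b with hc' | hc'
          · rw [hc', Equiv.swap_apply_right, hab]
          · rw [Equiv.swap_apply_of_ne_of_ne hc hc']
      have h2 := ha h (Equiv.swap a b)
      rw [h1, Equiv.Perm.sign_swap hne] at h2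
      push_cast at h2
      omega
  intro h
  exact key _ h rfl

end Pool.Agent.TH890.BMn
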