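import Pool.Agent.TH890.BM.GLn

/-! Reduction of the Breuil-Mezard identity for `GL_n(ℚ_p)` to restricted Hodge types. -/

namespace Pool.Agent.TH890.BMn

open Finset

variable {m : ℕ}

/-- The formal properties of the Grothendieck ring `G` of the finite dimensional mod `p`
representations of `GL_(m+1)` of the field with `p` elements, with the classes of the reductions of the
algebraic representations. `B` indexes the Serre weights. -/
structure WeylRing (p m : ℕ) (G : Type) [CommRing G] (B : Type) where
  /-- `W h`: for strictly decreasing `h`, the class of the reduction of the algebraic representation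
  of highest weight `h_a - m + a` (`0 ≤ a ≤ m`); alternating in `h` -/
  W : (Fin (m + 1) → ℤ) → G
  W_alt : ∀ (h : Fin (m + 1) → ℤ) (π : Equiv.Perm (Fin (m + 1))),
    W (h ∘ π) = ((Equiv.Perm.sign π : ℤ) : G) * W h
  /-- `el i`: class of the `i`-th exterior power of the standard representation -/
  el : ℕ → G
  pieri : ∀ (i : ℕ) (h : Fin (m + 1) → ℤ),
    W h * el i = ∑ I ∈ powersetCard i univ, W (ad h 1 I)
  frob : ∀ (i : ℕ) (h : Fin (m + 1) → ℤ),
    W h * el i = ∑ I ∈ powersetCard i univ, W (ad h p I)
  /-- the classes of the Serre weights are a basis -/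
  basis : Module.Basis B ℤ G

/-- Basic Hodge types: restricted, with the last weight `0`. -/
def Basic (p : ℕ) (h : Fin (m + 1) → ℤ) : Prop :=
  Restricted p h ∧ h (Fin.last m) = 0

variable {p : ℕ} {G : Type} [CommRing G] {B : Type} [Fintype B] (R : WeylRing p m G B)

/-- the linear functional -/
noncomputable def WeylRing.lin (μ : B → ℤ) (g : G) : ℤ := ∑ F, R.basis.repr g F * μ F

theorem WeylRing.lin_sum (μ : B → ℤ) {ι : Type} (s : Finset ι) (a : ι → G) :
    R.lin μ (∑ i ∈ s, a i) = ∑ i ∈ s, R.lin μ (a i) := by
  classical
  induction s using Finset.induction_on with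
  | empty =>
    unfold WeylRing.lin
    simp
  | insert i s hi ih =>
    rw [Finset.sum_insert hi, Finset.sum_insert hi, ← ih]
    unfold WeylRing.lin
    rw [← Finset.sum_add_distrib]
    refine Finset.sum_congr rfl fun F _ => ?_
    rw [map_add, Finsupp.add_apply, add_mul]

theorem WeylRing.lin_int_mul (μ : B → ℤ) (n : ℤ) (a : G) :
    R.lin μ ((n : G) * a) = n * R.lin μ a := by
  unfold WeylRing.lin
  rw [Finset.mul_sum]
  refine Finset.sum_congr rfl fun F _ => ?_
  rw [← zsmul_eq_mul, map_zsmul, Finsupp.smul_apply, smul_eq_mul, mul_assoc]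

theorem WeylRing.alt_lin (μ : B → ℤ) (y : G) : Alt fun h => R.lin μ (R.W h * y) := by
  intro h π
  show R.lin μ (R.W (h ∘ π) * y) = _
  rw [R.W_alt, mul_assoc, R.lin_int_mul]

theorem WeylRing.rel_lin (μ : B → ℤ) (y : G) : Rel p fun h => R.lin μ (R.W h * y) := by
  intro i h
  show ∑ I ∈ powersetCard i univ, R.lin μ (R.W (ad h p I) * y) =
    ∑ I ∈ powersetCard i univ, R.lin μ (R.W (ad h 1 I) * y)
  rw [← R.lin_sum, ← R.lin_sum, ← Finset.sum_mul, ← Finset.sum_mul, ← R.frob, ← R.pieri]

/-- For each family of multiplicities, the identity for all Hodge types is equivalent to the Frobenius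
relations and the identity for the basic Hodge types. -/
theorem main (hp : 2 ≤ p) {T : Type} (x : T → G) (E : (Fin (m + 1) → ℤ) → T → ℤ)
    (hE : ∀ τ, Alt fun h => E h τ) (tw : Equiv.Perm T)
    (hx : ∀ h τ, R.W (fun a => h a + 1) * x τ = R.W h * x (tw τ))
    (ht : ∀ h τ, StrictAnti h → E (fun a => h a + 1) τ = E h (tw τ)) (μ : B → ℤ) :
    (∀ h τ, StrictAnti h → E h τ = ∑ F, R.basis.repr (R.W h * x τ) F * μ F) ↔
    ((∀ τ, Rel p fun h => E h τ) ∧
      ∀ h τ, Basic p h → E h τ = ∑ F, R.basis.repr (R.W h * x τ) F * μ F) := by
  have hdiff : ∀ τ, Alt fun h => E h τ - R.lin μ (R.W h * x τ) := by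
    intro τ h π
    have h1 := hE τ h π
    have h2 := R.alt_lin μ (x τ) h π
    simp only at h1 h2 ⊢
    rw [h1, h2]
    ring
  constructor
  · intro H
    refine ⟨fun τ => ?_, fun h τ hh => H h τ hh.1.1⟩
    have h1 : ∀ h, E h τ = R.lin μ (R.W h * x τ) := by
      intro h
      by_cases hinj : Function.Injective h
      · set π := Tuple.sort fun a => -h a with hπ
        have h1 : Monotone ((fun a => -h a) ∘ π) := Tuple.monotone_sort _
        have h2 : Antitone (h ∘ π) := by
          intro a b hab
          have := h1 hab
          simp only [Function.comp_apply] at this ⊢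
          omega
        have h3 : StrictAnti (h ∘ π) := h2.strictAnti_of_injective (hinj.comp π.injective)
        have h4 : E (h ∘ π) τ - R.lin μ (R.W (h ∘ π) * x τ) = 0 := by
          rw [H _ τ h3]
          exact sub_self _
        have h5 := hdiff τ h π
        simp only at h5
        rw [h4] at h5
        rcases mul_eq_zero.1 h5.symm with h6 | h6
        · exact absurd h6 (by
            rcases Int.units_eq_one_or (Equiv.Perm.sign π) with h6 | h6 <;> rw [h6] <;> norm_num)
        · linarith
      · rw [Function.not_injective_iff] at hinj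
        obtain ⟨a, b, hab, hne⟩ := hinj
        have h1 : h ∘ Equiv.swap a b = h := by
          funext c
          simp only [Function.comp_apply]
          rcases eq_or_ne c a with hc | hc
          · rw [hc, Equiv.swap_apply_left, hab]
          · rcases eq_or_ne c b with hc' | hc'
            · rw [hc', Equiv.swap_apply_right, hab]
            · rw [Equiv.swap_apply_of_ne_of_ne hc hc']
        have h2 := hdiff τ h (Equiv.swap a b)
        simp only at h2
        rw [h1, Equiv.Perm.sign_swap hne] at h2
        push_cast at h2
        linarith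
    have h2 : (fun h => E h τ) = fun h => R.lin μ (R.W h * x τ) := funext h1
    rw [h2]
    exact R.rel_lin μ (x τ)
  · rintro ⟨hR, hb⟩
    -- restricted Hodge types
    have hres : ∀ k : ℕ, ∀ h τ, (h (Fin.last m)).natAbs = k → Restricted p h →
        E h τ = R.lin μ (R.W h * x τ) := by
      intro k
      induction k with
      | zero =>
        intro h τ hk hh
        exact hb h τ ⟨hh, by omega⟩
      | succ k ih =>
        intro h τ hk hh
        rcases lt_or_gt_of_ne (show h (Fin.last m) ≠ 0 by omega) with hneg | hpos
        · have hh' : Restricted p (fun a => h a + 1) :=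
            ⟨fun a b hab => by have := hh.1 hab; show h b + 1 < h a + 1; omega,
              fun i => by have := hh.2 i; show h i.castSucc + 1 - (h i.succ + 1) ≤ p; omega⟩
          have h1 := ih (fun a => h a + 1) (tw.symm τ) (by show (h (Fin.last m) + 1).natAbs = k; omega) hh'
          rw [ht h _ hh.1, hx, Equiv.apply_symm_apply] at h1
          exact h1
        · have hh' : Restricted p (fun a => h a - 1) :=
            ⟨fun a b hab => by have := hh.1 hab; show h b - 1 < h a - 1; omega,
              fun i => by have := hh.2 i; show h i.castSucc - 1 - (h i.succ - 1) ≤ p; omega⟩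
          have h1 := ih (fun a => h a - 1) (tw τ) (by show (h (Fin.last m) - 1).natAbs = k; omega) hh'
          have hback : (fun a => (fun a => h a - 1) a + 1) = h := by
            funext a
            show h a - 1 + 1 = h a
            ring
          rw [← ht _ _ hh'.1, ← hx, hback] at h1
          exact h1
    intro h τ _
    have hrel : Rel p fun h => E h τ - R.lin μ (R.W h * x τ) := by
      intro i h
      have a1 := hR τ i h
      have a2 := R.rel_lin μ (x τ) i h
      simp only at a1 a2 ⊢
      rw [Finset.sum_sub_distrib, Finset.sum_sub_distrib, a1, a2]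
    have h1 := vanish hp _ (hdiff τ) hrel (fun g hg => by
      show E g τ - R.lin μ (R.W g * x τ) = 0
      rw [hres _ g τ rfl hg]
      exact sub_self _) h
    have h3 : E h τ = R.lin μ (R.W h * x τ) := by linarith
    exact h3

end Pool.Agent.TH890.BMn
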